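import Pool.Agent.Helper79.UN.NGoals
import Pool.Agent.Helper46.NU.DfnT
import Pool.Agent.Helper13.NU.SYN

/-! # MP_57a173_lc: packet SYN -/

noncomputable section

namespace UN.PkSYN

open Pool.Agent.Helper97.Ku NU UL

theorem syn_pf (sy1 : U_SY1) (sy2 : U_SY2) (sy3 : U_SY3) : U_SYN :=
  Dfn.congr (Dfn.ex 0 (Dfn.and NU.PkSYN.omD (Dfn.all 1 (Dfn.all 2 (Dfn.or
    (Dfn.all 3 (Dfn.imp (sy1 0 1 2 3) (sy2 0 1 2 3)))
    (Dfn.ex 4 (Dfn.ex 5 (Dfn.ex 6 (Dfn.and (sy3 1 4 0 0 0).2.1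
      (Dfn.and (sy3 0 1 2 4 5).1 (Dfn.and (sy3 1 5 6 0 0).2.2
        (Dfn.neg (sy1 0 1 2 6)))))))))))))
    (fun N E w => by simp [UL.Phi])
    (fun L _ w => by simp [phiV])

end UN.PkSYN
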